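import Pool.Agent.Q27.LT.Final

/-!
# The lamplighter group over the free group of rank two is Cayley position-faithful (one-tape)
linear-time computable

The machines (`Machine`), their configurations and `LinTime` are defined in
`Pool/Agent/Q27/LT/Tm.lean`, the group `Lamp` in `Pool/Agent/Q27/LT/Lamp.lean`.
-/

namespace Pool.Agent.Results.MP_1173fd_al.OneTapeLinearTime

open Pool.Agent.Q27.LT

/-- The group `G` is Cayley position-faithful (one-tape) linear-time computable with respect to the
set `S`: there are a finite alphabet `A`, a language `L` over `A` and a bijection `ψ : L → G` such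
that for every `s ∈ S` some function `f` on all words over `A`, computed in linear time by a
position-faithful one-tape Turing machine, maps `L` to `L` and realises the right multiplication
by `s`. -/
def CayleyLinear (G : Type) [Group G] (S : Set G) : Prop :=
  ∃ (A : Type) (_ : Finite A) (L : Set (List A)) (ψ : L ≃ G), ∀ s ∈ S,
    ∃ f : List A → List A, LinTime f ∧ ∀ w : L, ∃ h : f w ∈ L, ψ ⟨f w, h⟩ = ψ w * s

/-- The restricted wreath product `Lamp` of `ℤ/2` and the free group of rank two is generated, as a
monoid, by a finite set, and it is Cayley position-faithful (one-tape) linear-time computable with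
respect to every set `S` of elements (finite or not). -/
theorem result : (∃ S : Set Lamp, S.Finite ∧ Submonoid.closure S = ⊤) ∧
    ∀ S : Set Lamp, CayleyLinear Lamp S := by
  refine ⟨⟨gens, ?_, gens_closure⟩, fun S => ?_⟩
  · exact (Set.finite_range _).union (Set.finite_singleton _)
  · let e : St ≃ Set.range (fun s : St => enc (L0 s)) := Equiv.ofInjective _ enc_inj
    refine ⟨TS Pay, inferInstance, Set.range (fun s : St => enc (L0 s)), e.symm.trans toG,
      fun g _ => ?_⟩
    obtain ⟨F, hF, h⟩ := sweep_mul g
    refine ⟨F, lintime _ inferInstance F hF, ?_⟩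
    rintro ⟨w, s, rfl⟩
    refine ⟨⟨toG.symm (toG s * g), (h s).symm⟩, ?_⟩
    have h1 : e.symm ⟨enc (L0 s), s, rfl⟩ = s := by
      rw [Equiv.symm_apply_eq]; rfl
    have h2 : ∀ hm, e.symm ⟨F (enc (L0 s)), hm⟩ = toG.symm (toG s * g) := by
      intro hm
      rw [Equiv.symm_apply_eq]
      exact Subtype.ext (h s)
    exact (congrArg toG (h2 _)).trans ((Equiv.apply_symm_apply _ _).trans
      (congrArg (fun t => toG t * g) h1.symm))

end Pool.Agent.Results.MP_1173fd_al.OneTapeLinearTime
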